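import Mathlib
import Pool.Agent.N266.TI.Stm

set_option autoImplicit false

/-! # Project TI (helper266), job NM (helper81): bounded almost minimizers -/

namespace Pool.Agent.N81.TI

open MeasureTheory Metric Set
open scoped ENNReal Pointwise ContDiff
open Pool.Agent.N266.TI

/-! ### The truncation -/

/-- the trapezoid -/
noncomputable def gg (b : ℝ) (s : ℝ) : ℝ := max 0 (min 1 (min (s / b) ((1 - s) / b)))

theorem gg_cont (b : ℝ) : Continuous (gg b) := by
  unfold gg
  exact continuous_const.max (continuous_const.min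
    ((continuous_id.div_const b).min ((continuous_const.sub continuous_id).div_const b)))

theorem gg_nonneg (b s : ℝ) : 0 ≤ gg b s := le_max_left _ _

theorem gg_le (b s : ℝ) : gg b s ≤ 1 := max_le zero_le_one (min_le_left _ _)

theorem gg_left {b s : ℝ} (hb : 0 < b) (hs : s ≤ 0) : gg b s = 0 := by
  unfold gg
  apply max_eq_left
  refine (min_le_right _ _).trans ((min_le_left _ _).trans ?_)
  exact div_nonpos_of_nonpos_of_nonneg hs hb.le

theorem gg_right {b s : ℝ} (hb : 0 < b) (hs : 1 ≤ s) : gg b s = 0 := by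
  unfold gg
  apply max_eq_left
  refine (min_le_right _ _).trans ((min_le_right _ _).trans ?_)
  exact div_nonpos_of_nonpos_of_nonneg (by linarith) hb.le

theorem gg_mid {b s : ℝ} (hb : 0 < b) (h1 : b ≤ s) (h2 : s ≤ 1 - b) : gg b s = 1 := by
  unfold gg
  have e1 : 1 ≤ s / b := by rwa [le_div_iff₀ hb, one_mul]
  have e2 : 1 ≤ (1 - s) / b := by rw [le_div_iff₀ hb, one_mul]; linarith
  rw [min_eq_left (le_min e1 e2)]
  exact max_eq_right zero_le_one

/-- the truncation -/
noncomputable def hh (b : ℝ) (t : ℝ) : ℝ := ∫ s in (0 : ℝ)..t, gg b s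

theorem hh_deriv (b t : ℝ) : HasDerivAt (hh b) (gg b t) t :=
  intervalIntegral.integral_hasDerivAt_right ((gg_cont b).intervalIntegrable _ _)
    (gg_cont b).stronglyMeasurable.stronglyMeasurableAtFilter (gg_cont b).continuousAt

theorem hh_contDiff (b : ℝ) : ContDiff ℝ 1 (hh b) := by
  rw [contDiff_one_iff_deriv]
  refine ⟨fun t => (hh_deriv b t).differentiableAt, ?_⟩
  have : deriv (hh b) = gg b := funext fun t => (hh_deriv b t).deriv
  rw [this]
  exact gg_cont b

theorem hh_mono (b : ℝ) : Monotone (hh b) := by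
  refine monotone_of_deriv_nonneg (hh_contDiff b).differentiable_one fun t => ?_
  rw [(hh_deriv b t).deriv]
  exact gg_nonneg b t

theorem hh_zero (b : ℝ) : hh b 0 = 0 := intervalIntegral.integral_same

theorem hh_left {b t : ℝ} (hb : 0 < b) (ht : t ≤ 0) : hh b t = 0 := by
  unfold hh
  rw [intervalIntegral.integral_congr (g := fun _ => (0 : ℝ))]
  · simp
  · intro s hs
    rw [uIcc_of_ge ht] at hs
    exact gg_left hb hs.2

theorem hh_right {b t : ℝ} (hb : 0 < b) (ht : 1 ≤ t) : hh b t = hh b 1 := by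
  unfold hh
  rw [← intervalIntegral.integral_add_adjacent_intervals ((gg_cont b).intervalIntegrable 0 1)
    ((gg_cont b).intervalIntegrable 1 t), intervalIntegral.integral_congr (a := 1) (b := t)
    (g := fun _ => (0 : ℝ))]
  · simp
  · intro s hs
    rw [uIcc_of_le ht] at hs
    exact gg_right hb hs.1

theorem hh_nonneg {b : ℝ} (hb : 0 < b) (t : ℝ) : 0 ≤ hh b t := by
  rcases le_total t 0 with h | h
  · rw [hh_left hb h]
  · rw [← hh_zero b]
    exact hh_mono b h

theorem hh_one_le (b : ℝ) : hh b 1 ≤ 1 := by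
  have h : ∫ s in (0 : ℝ)..1, gg b s ≤ ∫ _ in (0 : ℝ)..1, (1 : ℝ) :=
    intervalIntegral.integral_mono_on zero_le_one ((gg_cont b).intervalIntegrable _ _)
      intervalIntegrable_const fun s _ => gg_le b s
  unfold hh
  simpa using h

theorem hh_le {b : ℝ} (hb : 0 < b) (t : ℝ) : hh b t ≤ 1 := by
  rcases le_total t 1 with h | h
  · exact (hh_mono b h).trans (hh_one_le b)
  · rw [hh_right hb h]
    exact hh_one_le b

theorem hh_one_ge {b : ℝ} (hb : 0 < b) (hb2 : b ≤ 1 / 2) : 1 - 2 * b ≤ hh b 1 := by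
  have h0 : hh b 1 = (∫ s in (0 : ℝ)..b, gg b s) + (∫ s in b..(1 - b), gg b s) +
      ∫ s in (1 - b)..1, gg b s := by
    unfold hh
    rw [intervalIntegral.integral_add_adjacent_intervals ((gg_cont b).intervalIntegrable _ _)
      ((gg_cont b).intervalIntegrable _ _), intervalIntegral.integral_add_adjacent_intervals
      ((gg_cont b).intervalIntegrable _ _) ((gg_cont b).intervalIntegrable _ _)]
  have h1 : 0 ≤ ∫ s in (0 : ℝ)..b, gg b s :=
    intervalIntegral.integral_nonneg hb.le fun s _ => gg_nonneg b s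
  have h3 : 0 ≤ ∫ s in (1 - b)..1, gg b s :=
    intervalIntegral.integral_nonneg (by linarith) fun s _ => gg_nonneg b s
  have h2 : ∫ s in b..(1 - b), gg b s = 1 - 2 * b := by
    rw [intervalIntegral.integral_congr (g := fun _ => (1 : ℝ))]
    · rw [intervalIntegral.integral_const]
      simp
      ring
    · intro s hs
      rw [uIcc_of_le (by linarith)] at hs
      exact gg_mid hb hs.1 hs.2
  linarith

/-! ### Energies -/

theorem En_nonneg {n : ℕ} (φ : E n → ℝ) : 0 ≤ En φ := integral_nonneg fun _ => by positivity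

theorem integrable_gr {n : ℕ} {φ : E n → ℝ} (h1 : ContDiff ℝ 1 φ) (h2 : HasCompactSupport φ) :
    Integrable (fun x => ‖gr φ x‖ ^ 2) := by
  have hf : Continuous (fderiv ℝ φ) := h1.continuous_fderiv one_ne_zero
  have hc : Continuous fun L : E n →L[ℝ] ℝ =>
      ‖(WithLp.toLp 2 (fun i => L (e i)) : E n)‖ ^ 2 := by
    refine ((PiLp.continuous_toLp 2 _).comp (continuous_pi fun i => ?_)).norm.pow 2
    exact (ContinuousLinearMap.apply ℝ ℝ (e i : E n)).continuous
  have hs : HasCompactSupport fun x => ‖gr φ x‖ ^ 2 := by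
    have h3 := (h2.fderiv (𝕜 := ℝ)).comp_left (g := fun L : E n →L[ℝ] ℝ =>
      ‖(WithLp.toLp 2 (fun i => L (e i)) : E n)‖ ^ 2) (by
        have : (WithLp.toLp 2 (fun i : Fin n => (0 : E n →L[ℝ] ℝ) (e i)) : E n) = 0 := by
          ext i
          simp
        simp only [this]
        simp)
    exact h3
  exact (hc.comp hf).integrable_of_hasCompactSupport hs

theorem exists_adm {n : ℕ} {K : Set (E n)} (hK : IsCompact K) : ∃ φ : E n → ℝ, AdmF K φ := by
  obtain ⟨R, hR⟩ := hK.isBounded.subset_closedBall (0 : E n)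
  have hR1 : (0 : ℝ) < max R 1 := lt_max_of_lt_right one_pos
  let f : ContDiffBump (0 : E n) := ⟨max R 1, max R 1 + 1, hR1, by linarith⟩
  refine ⟨f, f.contDiff, f.hasCompactSupport, fun x hx => ?_⟩
  rw [f.one_of_mem_closedBall]
  exact closedBall_subset_closedBall (le_max_left _ _) (hR hx)

theorem nm : NM := by
  intro n K hK κ θ hκ hθ
  have hcap : 0 ≤ cap K := by
    unfold cap
    refine Real.sInf_nonneg ?_
    rintro _ ⟨φ, _, rfl⟩
    exact En_nonneg φ
  obtain ⟨φ0, hφ0⟩ := exists_adm hK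
  obtain ⟨_, ⟨φ, hφ, rfl⟩, hlt⟩ := exists_lt_of_csInf_lt (s := En '' {φ | AdmF K φ})
    ⟨_, φ0, hφ0, rfl⟩ (show sInf (En '' {φ | AdmF K φ}) < cap K + κ / 2 from
      lt_add_of_pos_right _ (by linarith))
  obtain ⟨h1, h2, h3⟩ := hφ
  -- the parameter
  obtain ⟨ε, hε, hε1, hεθ, hεκ⟩ : ∃ ε : ℝ, 0 < ε ∧ ε ≤ 1 ∧ ε ≤ θ ∧
      ε * (6 * (cap K + κ / 2)) ≤ κ := by
    refine ⟨min (min θ 1) (κ / (6 * (cap K + κ / 2))), by positivity,
      (min_le_left _ _).trans (min_le_right _ _), (min_le_left _ _).trans (min_le_left _ _), ?_⟩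
    rw [← le_div_iff₀ (by positivity)]
    exact min_le_right _ _
  set c : ℝ := 1 + ε with hc
  have hc0 : 0 < c := by positivity
  set b : ℝ := ε / (2 * c) with hb
  have hb0 : 0 < b := by positivity
  have hbc : b * (2 * c) = ε := by rw [hb]; field_simp
  have hb2 : b ≤ 1 / 2 := by nlinarith
  have hh1 : 1 ≤ c * hh b 1 := by
    have := mul_le_mul_of_nonneg_left (hh_one_ge hb0 hb2) hc0.le
    nlinarith
  have hcd : ContDiff ℝ 1 fun x => c * hh b (φ x) :=
    contDiff_const.mul ((hh_contDiff b).comp h1)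
  have hder : ∀ x, fderiv ℝ (fun x => c * hh b (φ x)) x = (c * gg b (φ x)) • fderiv ℝ φ x := by
    intro x
    have e1 : HasFDerivAt φ (fderiv ℝ φ x) x := (h1.differentiable one_ne_zero x).hasFDerivAt
    have e2 : HasFDerivAt (fun x => c * hh b (φ x)) (c • (gg b (φ x) • fderiv ℝ φ x)) x :=
      ((hh_deriv b (φ x)).comp_hasFDerivAt x e1).const_mul c
    rw [e2.fderiv, smul_smul]
  have hgr : ∀ x, gr (fun x => c * hh b (φ x)) x = (c * gg b (φ x)) • gr φ x := by
    intro x
    unfold gr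
    rw [hder]
    ext i
    simp
  refine ⟨fun x => c * hh b (φ x), ⟨hcd, ?_, fun x hx => ?_⟩, fun x => ⟨?_, ?_⟩, ?_⟩
  · exact h2.comp_left (g := fun t => c * hh b t) (by simp only [hh_zero, mul_zero])
  · exact hh1.trans (mul_le_mul_of_nonneg_left (hh_mono b (h3 x hx)) hc0.le)
  · exact mul_nonneg hc0.le (hh_nonneg hb0 _)
  · have := mul_le_mul_of_nonneg_left (hh_le hb0 (φ x)) hc0.le
    show c * hh b (φ x) ≤ 1 + θ
    linarith
  · have h4 : En (fun x => c * hh b (φ x)) ≤ c ^ 2 * En φ := by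
      unfold En
      rw [← integral_const_mul]
      refine integral_mono_of_nonneg (Filter.Eventually.of_forall fun x => by positivity)
        ((integrable_gr h1 h2).const_mul _) (Filter.Eventually.of_forall fun x => ?_)
      show ‖gr (fun x => c * hh b (φ x)) x‖ ^ 2 ≤ c ^ 2 * ‖gr φ x‖ ^ 2
      rw [hgr, norm_smul, Real.norm_of_nonneg (mul_nonneg hc0.le (gg_nonneg _ _)), mul_pow]
      refine mul_le_mul_of_nonneg_right ?_ (by positivity)
      refine pow_le_pow_left₀ (mul_nonneg hc0.le (gg_nonneg _ _)) ?_ 2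
      exact mul_le_of_le_one_right hc0.le (gg_le _ _)
    have h5 : c ^ 2 ≤ 1 + 3 * ε := by
      rw [hc]
      nlinarith
    have h6 : c ^ 2 * En φ ≤ (1 + 3 * ε) * (cap K + κ / 2) :=
      mul_le_mul h5 hlt.le (En_nonneg φ) (by positivity)
    nlinarith

end Pool.Agent.N81.TI
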